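import Pool.Agent.KK.StmtsB

/-!
# Squad KK, block B, row EXC: the exchange lemma
-/

set_option autoImplicit false

namespace Pool.Agent.KK.B.H40

open Function Pool.Agent.KK.B
open scoped Classical

variable {k : ℕ} {V : Type} [Fintype V]

/-- the conclusion of the exchange lemma for one point `z` -/
def Gd (E : (Fin k → V) → Prop) (D : Fin k → (Fin k → V) → Prop) (β : ℝ) (b : Fin k → V)
    (i l m : Fin k) (z : V) : Prop :=
  SS D i l (update b m z) ∧ pm (44 * β) (nb E (update b m z) i) (nb E b i)

omit [Fintype V] in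
lemma swap_update (b : Fin k → V) {l m : Fin k} (hlm : l ≠ m) (z : V) :
    update b m z ∘ (Equiv.swap l m) = update (update b l z) m (b l) := by
  funext x
  rw [comp_apply]
  by_cases h1 : x = m
  · subst h1
    rw [Equiv.swap_apply_right, update_self, update_of_ne hlm]
  · by_cases h2 : x = l
    · subst h2
      rw [Equiv.swap_apply_left, update_self, update_of_ne hlm, update_self]
    · rw [Equiv.swap_apply_of_ne_of_ne h2 h1, update_of_ne h1, update_of_ne h1, update_of_ne h2]

/-- two good points on split lines with the same traces have the same neighbourhoods up to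
`22 β` -/
lemma pm22 (hNsp : NspStmt) [Nonempty V] {E : (Fin k → V) → Prop}
    {D : Fin k → (Fin k → V) → Prop} {β : ℝ} (h0 : 0 < β) (h1 : β ≤ 1 / 16) (hS : Symm E)
    (hD : Deg E) {a c : Fin k → V} {i l : Fin k} (hil : i ≠ l) (ha : G0 E D β a)
    (hc : G0 E D β c) (hsp : Sp D a i l)
    (hac : (fun p => D i (update a l p)) = (fun p => D i (update c l p))) :
    pm (22 * β) (nb E a i) (nb E c i) := by
  have hsp' : Sp D c i l := by
    unfold Sp at hsp ⊢
    rw [← hac]
    exact hsp
  obtain ⟨p1, p2, _⟩ := G0_self ha hil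
  obtain ⟨q1, q2, _⟩ := G0_self hc hil
  have h3 := (hNsp k V E D β a i l h0 h1 hS hD hil p1 p2 hsp).1
  have h4 := (hNsp k V E D β c i l h0 h1 hS hD hil q1 q2 hsp').1
  rw [← hac] at h4
  have h5 := pm_trans h3 (pm_symm h4)
  exact pm_mono (by linarith) h5

/-- Case 1: a split plane in the directions `i, m` -/
lemma good1 (hNsp : NspStmt) [Nonempty V] {E : (Fin k → V) → Prop}
    {D : Fin k → (Fin k → V) → Prop} {β : ℝ} (h0 : 0 < β) (h1 : β ≤ 1 / 16) (hS : Symm E)
    (hD : Deg E) {b : Fin k → V} {i l m : Fin k} (hil : i ≠ l) (him : i ≠ m) (hlm : l ≠ m)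
    (hb : G0 E D β b) (hsp : Sp D b i l) {z : V} (hm : G0 E D β (update b m z))
    (hl : G0 E D β (update b l z)) (hP : Sp D (update b l z) i m) : Gd E D β b i l m z := by
  have hc := swap_update b hlm z
  have hsw : Equiv.swap l m i = i := Equiv.swap_apply_of_ne_of_ne hil him
  have hfun : (fun p => D i (update (update b m z ∘ (Equiv.swap l m)) m p)) =
      (fun p => D i (update (update b l z) m p)) := by
    funext p
    rw [hc, update_idem]
  have hG : G0 E D β (update b m z ∘ (Equiv.swap l m)) := (G0_perm E D β _ _).mpr hm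
  have hspc : Sp D (update b m z ∘ (Equiv.swap l m)) i m := by
    unfold Sp at hP ⊢
    rw [hfun]
    exact hP
  refine ⟨⟨Equiv.swap l m, ?_⟩, ?_⟩
  · rw [Equiv.symm_swap, hsw, Equiv.swap_apply_left]
    exact hspc
  · have h2 := pm22 hNsp h0 h1 hS hD him hG hl hspc hfun
    rw [nb_perm hS, hsw] at h2
    have hfun2 : (fun p => D i (update (update b l z) l p)) = (fun p => D i (update b l p)) := by
      funext p
      rw [update_idem]
    have hsp2 : Sp D (update b l z) i l := by
      unfold Sp at hsp ⊢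
      rw [hfun2]
      exact hsp
    have h3 := pm22 hNsp h0 h1 hS hD hil hl hb hsp2 hfun2
    exact pm_mono (by linarith) (pm_trans h2 h3)

/-- Case 3: the plane in the directions `i, l` is split over `z` -/
lemma good3 (hNsp : NspStmt) [Nonempty V] {E : (Fin k → V) → Prop}
    {D : Fin k → (Fin k → V) → Prop} {β : ℝ} (h0 : 0 < β) (h1 : β ≤ 1 / 16) (hS : Symm E)
    (hD : Deg E) {b : Fin k → V} {i l m : Fin k} (hil : i ≠ l) (him : i ≠ m) (hlm : l ≠ m)
    (hb : G0 E D β b) (hsp : Sp D b i l) {z : V} (hm : G0 E D β (update b m z))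
    (hl : G0 E D β (update b l z)) (hP : Sp D (update b m z) i l) : Gd E D β b i l m z := by
  have hc := swap_update b hlm.symm z
  have hsw : Equiv.swap m l i = i := Equiv.swap_apply_of_ne_of_ne him hil
  have hfun : (fun p => D i (update (update b m z) l p)) =
      (fun p => D i (update (update b l z ∘ (Equiv.swap m l)) l p)) := by
    funext p
    rw [hc, update_idem]
  have hG : G0 E D β (update b l z ∘ (Equiv.swap m l)) := (G0_perm E D β _ _).mpr hl
  refine ⟨⟨1, hP⟩, ?_⟩
  have h2 := pm22 hNsp h0 h1 hS hD hil hm hG hP hfun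
  rw [nb_perm hS, hsw] at h2
  have hfun2 : (fun p => D i (update (update b l z) l p)) = (fun p => D i (update b l p)) := by
    funext p
    rw [update_idem]
  have hsp2 : Sp D (update b l z) i l := by
    unfold Sp at hsp ⊢
    rw [hfun2]
    exact hsp
  have h3 := pm22 hNsp h0 h1 hS hD hil hl hb hsp2 hfun2
  exact pm_mono (by linarith) (pm_trans h2 h3)

/-- the counting of case 3: if many `u` in a set `U` have nearly full fibres then most `z` have a
large fibre -/
lemma fibre {U : V → Prop} {F : V → V → Prop} {β θ ε : ℝ} (hθ : 0 < θ) (hβ : 0 ≤ β)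
    (hU : ε ≤ dens U) (hF : ∀ u, U u → dens (fun z => ¬ F u z) ≤ β) :
    dens (fun z => dens (fun u => F u z) < ε - θ / 4) ≤ 4 * β / θ := by
  have h1 : dens (fun x : V × V => (fun u z => U u ∧ ¬ F u z) x.1 x.2) ≤ β := by
    refine dens_prod_le (α := V) (β := V) (Q := fun u z => U u ∧ ¬ F u z) hβ fun u => ?_
    by_cases hu : U u
    · refine (dens_mono fun z hz => ?_).trans (hF u hu)
      exact hz.2
    · refine (dens_mono (Q := fun _ : V => False) fun z hz => hu hz.1).trans ?_
      rw [dens_false]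
      exact hβ
  have h2 : dens (fun x : V × V => (fun z u => U u ∧ ¬ F u z) x.1 x.2) ≤ β := by
    have h3 := dens_equiv (Equiv.prodComm V V) (fun x : V × V => U x.1 ∧ ¬ F x.1 x.2)
    exact le_trans (le_of_eq h3) h1
  have h4 := markov (fun z u => U u ∧ ¬ F u z) (θ / 4)
  have h5 : dens (fun z => θ / 4 < dens (fun u => U u ∧ ¬ F u z)) ≤ 4 * β / θ := by
    rw [le_div_iff₀ hθ]
    have h6 := h4.trans h2
    linarith
  refine (dens_mono fun z hz => ?_).trans h5
  have h7 := dens_split U (fun u => F u z)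
  have h8 : dens (fun u => U u ∧ F u z) ≤ dens (fun u => F u z) := dens_mono fun u hu => hu.2
  have h9 : dens (fun u => F u z) < ε - θ / 4 := hz
  show θ / 4 < dens (fun u => U u ∧ ¬ F u z)
  linarith

/-- **The exchange lemma at `b`.** -/
theorem exc_core (hPlt : PltStmt) (hNsp : NspStmt) [Nonempty V] {E : (Fin k → V) → Prop}
    {D : Fin k → (Fin k → V) → Prop} {β δ θ : ℝ} (h0 : 0 < β) (h1 : β ≤ 1 / 16) (hθ : 0 < θ)
    (hθ1 : θ ≤ 1 / 8) (hδθ : δ ≤ θ / 4) (hβθ : β ≤ θ ^ 2 / 22) (hS : Symm E)
    (hD : Deg E) {b : Fin k → V} {i l m : Fin k} (hil : i ≠ l) (him : i ≠ m) (hlm : l ≠ m)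
    (hb : G0 E D β b) (hsp : Sp D b i l)
    (hgl : dens (fun z => ¬ G0 E D β (update b l z)) ≤ δ)
    (hgm : dens (fun z => ¬ G0 E D β (update b m z)) ≤ δ) :
    ∃ Z : V → Prop, (Z = nb E b i ∨ Z = fun v => ¬ nb E b i v) ∧
      dens (fun z => Z z ∧ ¬ Gd E D β b i l m z) ≤ 2 * θ := by
  have hβθ' : 22 * β ≤ θ ^ 2 := by linarith
  have hθsq : θ ^ 2 ≤ θ / 8 := by nlinarith
  obtain ⟨p1, p2, p3⟩ := G0_self hb hil
  have hnb := (hNsp k V E D β b i l h0 h1 hS hD hil p1 p2 hsp).1
  have hg : dens (fun z => ¬ G0 E D β (update b m z) ∨ ¬ G0 E D β (update b l z)) ≤ 2 * δ :=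
    (dens_or_le _ _).trans (by linarith)
  by_cases hc1 : dens (fun u => D i (update b l u) ∧ ¬ Sp D (update b l u) i m) ≤ θ
  · -- case 1
    have h2 : dens (fun z => D i (update b l z) ∧ ¬ Gd E D β b i l m z) ≤ θ + 2 * δ := by
      refine (dens_mono (Q := fun z => (D i (update b l z) ∧ ¬ Sp D (update b l z) i m) ∨
        (¬ G0 E D β (update b m z) ∨ ¬ G0 E D β (update b l z))) fun z hz => ?_).trans
        ((dens_or_le _ _).trans (add_le_add hc1 hg))
      by_contra hcon
      push Not at hcon
      exact hz.2 (good1 hNsp h0 h1 hS hD hil him hlm hb hsp hcon.2.1 hcon.2.2 (hcon.1 hz.1))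
    rcases hnb with hn | hn
    · refine ⟨nb E b i, Or.inl rfl, ?_⟩
      unfold near at hn
      refine (dens_mono (Q := fun z => (¬ (nb E b i z ↔ D i (update b l z))) ∨
        (D i (update b l z) ∧ ¬ Gd E D β b i l m z)) fun z hz => ?_).trans
        ((dens_or_le _ _).trans ((add_le_add hn h2).trans (by linarith)))
      by_cases h3 : D i (update b l z)
      · exact Or.inr ⟨h3, hz.2⟩
      · exact Or.inl fun h4 => h3 (h4.mp hz.1)
    · refine ⟨fun v => ¬ nb E b i v, Or.inr rfl, ?_⟩
      unfold near at hn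
      refine (dens_mono (Q := fun z => (¬ (nb E b i z ↔ ¬ D i (update b l z))) ∨
        (D i (update b l z) ∧ ¬ Gd E D β b i l m z)) fun z hz => ?_).trans
        ((dens_or_le _ _).trans ((add_le_add hn h2).trans (by linarith)))
      by_cases h3 : D i (update b l z)
      · exact Or.inr ⟨h3, hz.2⟩
      · exact Or.inl fun h4 => hz.1 (h4.mpr h3)
  · by_cases hc2 : dens (fun u => ¬ D i (update b l u) ∧ ¬ Sp D (update b l u) i m) ≤ θ
    · -- case 2
      have h2 : dens (fun z => ¬ D i (update b l z) ∧ ¬ Gd E D β b i l m z) ≤ θ + 2 * δ := by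
        refine (dens_mono (Q := fun z => (¬ D i (update b l z) ∧ ¬ Sp D (update b l z) i m) ∨
          (¬ G0 E D β (update b m z) ∨ ¬ G0 E D β (update b l z))) fun z hz => ?_).trans
          ((dens_or_le _ _).trans (add_le_add hc2 hg))
        by_contra hcon
        push Not at hcon
        exact hz.2 (good1 hNsp h0 h1 hS hD hil him hlm hb hsp hcon.2.1 hcon.2.2 (hcon.1 hz.1))
      rcases hnb with hn | hn
      · refine ⟨fun v => ¬ nb E b i v, Or.inr rfl, ?_⟩
        unfold near at hn
        refine (dens_mono (Q := fun z => (¬ (nb E b i z ↔ D i (update b l z))) ∨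
          (¬ D i (update b l z) ∧ ¬ Gd E D β b i l m z)) fun z hz => ?_).trans
          ((dens_or_le _ _).trans ((add_le_add hn h2).trans (by linarith)))
        by_cases h3 : D i (update b l z)
        · exact Or.inl fun h4 => hz.1 (h4.mpr h3)
        · exact Or.inr ⟨h3, hz.2⟩
      · refine ⟨nb E b i, Or.inl rfl, ?_⟩
        unfold near at hn
        refine (dens_mono (Q := fun z => (¬ (nb E b i z ↔ ¬ D i (update b l z))) ∨
          (¬ D i (update b l z) ∧ ¬ Gd E D β b i l m z)) fun z hz => ?_).trans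
          ((dens_or_le _ _).trans ((add_le_add hn h2).trans (by linarith)))
        by_cases h3 : D i (update b l z)
        · exact Or.inl fun h4 => (h4.mp hz.1) h3
        · exact Or.inr ⟨h3, hz.2⟩
    · -- case 3
      rw [not_le] at hc1 hc2
      have hU1 : θ - δ ≤ dens (fun u => (D i (update b l u) ∧ ¬ Sp D (update b l u) i m) ∧
          G0 E D β (update b l u)) := by
        have h2 := dens_split (fun u => D i (update b l u) ∧ ¬ Sp D (update b l u) i m)
          (fun u => G0 E D β (update b l u))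
        have h3 : dens (fun u => (D i (update b l u) ∧ ¬ Sp D (update b l u) i m) ∧
            ¬ G0 E D β (update b l u)) ≤ δ := (dens_mono fun u hu => hu.2).trans hgl
        linarith
      have hU0 : θ - δ ≤ dens (fun u => (¬ D i (update b l u) ∧ ¬ Sp D (update b l u) i m) ∧
          G0 E D β (update b l u)) := by
        have h2 := dens_split (fun u => ¬ D i (update b l u) ∧ ¬ Sp D (update b l u) i m)
          (fun u => G0 E D β (update b l u))
        have h3 : dens (fun u => (¬ D i (update b l u) ∧ ¬ Sp D (update b l u) i m) ∧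
            ¬ G0 E D β (update b l u)) ≤ δ := (dens_mono fun u hu => hu.2).trans hgl
        linarith
      have hF1 := fibre (F := fun u z => D i (update (update b l u) m z)) hθ h0.le hU1
        (fun u hu => by
          obtain ⟨⟨hA, hP⟩, hG⟩ := hu
          obtain ⟨_, q2, q3⟩ := G0_self hG him
          rcases hPlt k V E D β (update b l u) i m h0 h1 hS hD him q2 with h2 | h2 | h2
          · exact absurd hA (q3.2 h2.1)
          · exact h2.1
          · exact absurd h2.1 hP)
      have hF0 := fibre (F := fun u z => ¬ D i (update (update b l u) m z)) hθ h0.le hU0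
        (fun u hu => by
          obtain ⟨⟨hA, hP⟩, hG⟩ := hu
          obtain ⟨_, q2, q3⟩ := G0_self hG him
          rcases hPlt k V E D β (update b l u) i m h0 h1 hS hD him q2 with h2 | h2 | h2
          · simp only [not_not]
            exact h2.1
          · exact absurd (q3.1 h2.1) hA
          · exact absurd h2.1 hP)
      refine ⟨nb E b i, Or.inl rfl, ?_⟩
      have hfin : 4 * β / θ + 4 * β / θ + 2 * δ ≤ 2 * θ := by
        have h2 : β / θ ≤ θ / 22 := by
          rw [div_le_iff₀ hθ]
          nlinarith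
        have h3 : 4 * β / θ = 4 * (β / θ) := by ring
        rw [h3]
        linarith
      have hF1' : dens (fun z => dens (fun u => D i (update (update b l u) m z)) <
        θ - δ - θ / 4) ≤ 4 * β / θ := hF1
      have hF0' : dens (fun z => dens (fun u => ¬ D i (update (update b l u) m z)) <
        θ - δ - θ / 4) ≤ 4 * β / θ := hF0
      have hor1 := dens_or_le (fun z => dens (fun u => D i (update (update b l u) m z)) <
        θ - δ - θ / 4) (fun z => dens (fun u => ¬ D i (update (update b l u) m z)) <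
        θ - δ - θ / 4)
      have hor2 := dens_or_le (fun z => (dens (fun u => D i (update (update b l u) m z)) <
        θ - δ - θ / 4) ∨ (dens (fun u => ¬ D i (update (update b l u) m z)) <
        θ - δ - θ / 4)) (fun z => ¬ G0 E D β (update b m z) ∨ ¬ G0 E D β (update b l z))
      have hmono : dens (fun z => nb E b i z ∧ ¬ Gd E D β b i l m z) ≤
          dens (fun z => ((dens (fun u => D i (update (update b l u) m z)) < θ - δ - θ / 4) ∨
            (dens (fun u => ¬ D i (update (update b l u) m z)) < θ - δ - θ / 4)) ∨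
            (¬ G0 E D β (update b m z) ∨ ¬ G0 E D β (update b l z))) := ?_
      · linarith
      refine dens_mono fun z hz => ?_
      by_contra hcon
      push Not at hcon
      obtain ⟨⟨h2, h3⟩, h4, h5⟩ := hcon
      refine hz.2 (good3 hNsp h0 h1 hS hD hil him hlm hb hsp h4 h5 ?_)
      have hcomm : ∀ u, update (update b l u) m z = update (update b m z) l u := fun u =>
        update_comm hlm _ _ _
      simp only [hcomm] at h2 h3
      obtain ⟨_, q2, _⟩ := G0_self h4 hil
      rcases hPlt k V E D β (update b m z) i l h0 h1 hS hD hil q2 with h6 | h6 | h6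
      · exfalso; have := h6.1; linarith
      · exfalso; have := h6.1; linarith
      · exact h6.1

/-- **Row EXC.** -/
theorem exc (hPlt : PltStmt) (hNsp : NspStmt) : ExcStmt := by
  intro k V _ _ E D β δ θ a i0 i1 m h0 h1 hθ hθ1 hδ hδθ hβθ hS hD _ h01 hm0 hm1 hlev hss
  obtain ⟨σ, hσ⟩ := hss
  obtain ⟨hG, hGm⟩ := hlev
  have hi : σ (σ.symm i0) = i0 := Equiv.apply_symm_apply _ _
  have hl : σ (σ.symm i1) = i1 := Equiv.apply_symm_apply _ _
  have hm : σ (σ.symm m) = m := Equiv.apply_symm_apply _ _
  have hlevl : dens (fun z => ¬ G0 E D β (update (a ∘ σ) (σ.symm i1) z)) ≤ δ := by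
    refine (dens_mono fun z hz => ?_).trans (hGm i1)
    rw [update_comp_perm, hl, G0_perm] at hz
    exact hz
  have hlevm : dens (fun z => ¬ G0 E D β (update (a ∘ σ) (σ.symm m) z)) ≤ δ := by
    refine (dens_mono fun z hz => ?_).trans (hGm m)
    rw [update_comp_perm, hm, G0_perm] at hz
    exact hz
  obtain ⟨Z, hZ, hZ'⟩ := exc_core hPlt hNsp h0 h1 hθ hθ1 hδθ hβθ hS hD
    (b := a ∘ σ) (i := σ.symm i0) (l := σ.symm i1) (m := σ.symm m)
    (fun h => h01 (σ.symm.injective h)) (fun h => hm0 (σ.symm.injective h).symm)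
    (fun h => hm1 (σ.symm.injective h).symm) ((G0_perm E D β σ a).mpr hG) hσ hlevl hlevm
  rw [nb_perm hS, hi] at hZ
  refine ⟨Z, hZ, (dens_mono fun z hz => ?_).trans hZ'⟩
  refine ⟨hz.1, fun hgd => hz.2 ?_⟩
  obtain ⟨⟨τ, hτ⟩, hpm⟩ := hgd
  have hup : update (a ∘ σ) (σ.symm m) z = update a m z ∘ σ := by
    rw [update_comp_perm, hm]
  rw [hup] at hτ hpm
  rw [nb_perm hS, nb_perm hS, hi] at hpm
  exact ⟨⟨τ.trans σ, hτ⟩, hpm⟩

end Pool.Agent.KK.B.H40
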