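import Pool.Agent.Helper40_KK.MixC

/-!
# Squad KK, block E, row MIX: crossing with a mixed minimal non-normal set
-/

set_option autoImplicit false

namespace Pool.Agent.KK.E.H40

open Pool.Agent.KK Pool.Agent.KK.E

variable {V : Type} [Fintype V] [DecidableEq V]

/-- positions of the start -/
def ph1 (p q : ℕ) : Fin (low p q).length → Fin (3 * (p + q + 2) - 2) := fun i =>
  ⟨(i : ℕ), by have := i.2; have := low_length p q; omega⟩

/-- positions of the end -/
def ph2 (p q : ℕ) : Fin (high p q).length → Fin (3 * (p + q + 2) - 2) := fun i =>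
  ⟨2 * p + 2 * q + 3 + (i : ℕ), by have := i.2; have := high_length p q; omega⟩

lemma ph1_inj (p q : ℕ) : Function.Injective (ph1 p q) := by
  intro i j h
  have := congrArg Fin.val h
  exact Fin.ext this

lemma ph2_inj (p q : ℕ) : Function.Injective (ph2 p q) := by
  intro i j h
  have h1 := congrArg Fin.val h
  have h2 : 2 * p + 2 * q + 3 + (i : ℕ) = 2 * p + 2 * q + 3 + (j : ℕ) := h1
  exact Fin.ext (by omega)

omit [Fintype V] [DecidableEq V] in
lemma take_ofFn (p q : ℕ) (f : Fin (3 * (p + q + 2) - 2) → V) :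
    (List.ofFn f).take (p + q + 2 - 1) = List.ofFn (f ∘ ph1 p q) := by
  have hl := low_length p q
  apply List.ext_getElem
  · simp only [List.length_take, List.length_ofFn]
    omega
  · intro i h1 h2
    rw [List.getElem_take, List.getElem_ofFn, List.getElem_ofFn]
    rfl

omit [Fintype V] [DecidableEq V] in
lemma drop_ofFn (p q : ℕ) (f : Fin (3 * (p + q + 2) - 2) → V) :
    (List.ofFn f).drop (2 * (p + q + 2) - 1) = List.ofFn (f ∘ ph2 p q) := by
  have hl := high_length p q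
  apply List.ext_getElem
  · simp only [List.length_drop, List.length_ofFn]
    omega
  · intro i h1 h2
    rw [List.getElem_drop, List.getElem_ofFn, List.getElem_ofFn]
    refine congrArg f (Fin.ext ?_)
    show 2 * (p + q + 2) - 1 + i = 2 * p + 2 * q + 3 + i
    omega

lemma amb_nonempty {H : Finset (Finset V)} {X : Finset V} {p q B : ℕ} {δ : ℝ}
    (hA : Amb H X p q B δ) : 0 < Fintype.card V ∧ X.Nonempty ∧ (Xᶜ).Nonempty ∧
      ∀ b, (Fintype.card V : ℝ) ≤ 3 * ((sd X b).card : ℝ) := by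
  have h1 := hA.big
  have h2 := hA.pos
  have h3 := hA.small
  have hk : (1 : ℝ) ≤ ((p + q + 2 : ℕ) : ℝ) := by
    exact_mod_cast (by omega : 1 ≤ p + q + 2)
  have hk' : (1 : ℝ) ≤ ((B + p + q + 2 : ℕ) : ℝ) := by
    exact_mod_cast (by omega : 1 ≤ B + p + q + 2)
  have h4 : (0 : ℝ) < 100 * ((p + q + 2 : ℕ) : ℝ) ^ 2 * ((B + p + q + 2 : ℕ) : ℝ) := by positivity
  have hn : (0 : ℝ) < (Fintype.card V : ℝ) := by
    by_contra hcon
    have h5 : (Fintype.card V : ℝ) ≤ 0 := not_lt.mp hcon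
    nlinarith
  have h5 := hA.lo
  have h6 := hA.lo'
  have h7 : (Fintype.card V : ℝ) ≤ 3 * (X.card : ℝ) := by nlinarith
  have h8 : (Fintype.card V : ℝ) ≤ 3 * ((Xᶜ).card : ℝ) := by nlinarith
  refine ⟨by exact_mod_cast hn, ?_, ?_, ?_⟩
  · rw [← Finset.card_pos]
    have : (0 : ℝ) < (X.card : ℝ) := by linarith
    exact_mod_cast this
  · rw [← Finset.card_pos]
    have : (0 : ℝ) < ((Xᶜ).card : ℝ) := by linarith
    exact_mod_cast this
  · intro b
    unfold sd
    split_ifs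
    · exact h7
    · exact h8

/-- degenerate tuples -/
lemma dens_deg (h04 : StmtE04) {H : Finset (Finset V)} {X M F : Finset V} {p q B : ℕ} {δ : ℝ}
    (hA : Amb H X p q B δ) (hFB : F.card ≤ B) {o : Fin (3 * (p + q + 2) - 2) → Option V}
    (hF : Fx p q M o) (l : Fin (3 * (p + q + 2) - 2) → Bool) :
    dens (bx X l o) (fun f => ¬ (Function.Injective f ∧ ∀ i, o i = none → f i ∉ F)) ≤ δ := by
  obtain ⟨hn, _, _, h3⟩ := amb_nonempty hA
  refine (h04 V (Fin (3 * (p + q + 2) - 2)) X F l o hn h3 hF.inj).trans ?_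
  have hn' : (0 : ℝ) < (Fintype.card V : ℝ) := by exact_mod_cast hn
  rw [div_le_iff₀ hn']
  refine le_trans ?_ hA.big
  rw [Fintype.card_fin]
  set K : ℝ := ((p + q + 2 : ℕ) : ℝ) with hK
  have hK1 : (1 : ℝ) ≤ K := by
    rw [hK]; exact_mod_cast (by omega : 1 ≤ p + q + 2)
  have h4 : ((3 * (p + q + 2) - 2 : ℕ) : ℝ) ≤ 3 * K := by
    have : ((3 * (p + q + 2) - 2 : ℕ) : ℝ) ≤ ((3 * (p + q + 2) : ℕ) : ℝ) := by
      exact_mod_cast Nat.sub_le _ _
    refine this.trans (le_of_eq ?_)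
    rw [hK]; push_cast; ring
  have h5 : (0 : ℝ) ≤ ((3 * (p + q + 2) - 2 : ℕ) : ℝ) := Nat.cast_nonneg _
  have h6 : (F.card : ℝ) ≤ (B : ℝ) := by exact_mod_cast hFB
  have h7 : ((B + p + q + 2 : ℕ) : ℝ) = (B : ℝ) + K := by
    rw [hK]; push_cast; ring
  have hB : (0 : ℝ) ≤ (B : ℝ) := Nat.cast_nonneg _
  have hF0 : (0 : ℝ) ≤ (F.card : ℝ) := Nat.cast_nonneg _
  rw [h7]
  have h8 : ((3 * (p + q + 2) - 2 : ℕ) : ℝ) ^ 2 ≤ 9 * K ^ 2 := by nlinarith
  have h9 : ((3 * (p + q + 2) - 2 : ℕ) : ℝ) * (F.card : ℝ) ≤ 3 * K * B := by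
    exact mul_le_mul h4 h6 hF0 (by linarith)
  have h10 : K * B ≤ K ^ 2 * B := mul_le_mul_of_nonneg_right (by nlinarith) hB
  have h11 : K ^ 2 ≤ K ^ 3 := by nlinarith
  have h12 : (0 : ℝ) ≤ K ^ 2 * B := by positivity
  have h13 : (0 : ℝ) ≤ K ^ 3 := by positivity
  have h14 : 100 * K ^ 2 * ((B : ℝ) + K) = 100 * (K ^ 2 * B) + 100 * K ^ 3 := by ring
  rw [h14]
  nlinarith

/-- the ends -/
lemma dens_low (h02 : StmtE02) {X M : Finset V} {p q : ℕ} {β : ℝ} {S : Set (List V)}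
    {o : Fin (3 * (p + q + 2) - 2) → Option V} (hF : Fx p q M o) (hMp : M.card ≤ p + 1)
    (hbx : ∀ i, (bx X (fun i : Fin (3 * (p + q + 2) - 2) => ltr p q (i : ℕ)) o i).Nonempty)
    (hS : Alm X (low p q) S β) :
    dens (bx X (fun i : Fin (3 * (p + q + 2) - 2) => ltr p q (i : ℕ)) o)
      (fun f => List.ofFn (f ∘ ph1 p q) ∉ S) ≤ β := by
  rw [h02 V (Fin (3 * (p + q + 2) - 2)) (Fin (low p q).length) _ (ph1 p q) hbx (ph1_inj p q)
    (fun a => List.ofFn a ∉ S)]
  have h1 : (bx X (fun i : Fin (3 * (p + q + 2) - 2) => ltr p q (i : ℕ)) o) ∘ ph1 p q =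
      fun i : Fin (low p q).length => sd X ((low p q).get i) := by
    funext i
    have hi := i.2
    have hl := low_length p q
    have hnone : o (ph1 p q i) = none := by
      rw [hF.none]
      show ¬ (2 * p + 2 * q + 3 ≤ (i : ℕ) + M.card ∧ (i : ℕ) < 2 * p + 2 * q + 3)
      omega
    simp only [Function.comp_apply]
    unfold bx
    rw [hnone, low_get]
    rfl
  rw [h1]
  exact hS

lemma dens_high (h02 : StmtE02) {X M : Finset V} {p q : ℕ} {β : ℝ} {T : Set (List V)}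
    {o : Fin (3 * (p + q + 2) - 2) → Option V} (hF : Fx p q M o)
    (hbx : ∀ i, (bx X (fun i : Fin (3 * (p + q + 2) - 2) => ltr p q (i : ℕ)) o i).Nonempty)
    (hT : Alm X (high p q) T β) :
    dens (bx X (fun i : Fin (3 * (p + q + 2) - 2) => ltr p q (i : ℕ)) o)
      (fun f => List.ofFn (f ∘ ph2 p q) ∉ T) ≤ β := by
  rw [h02 V (Fin (3 * (p + q + 2) - 2)) (Fin (high p q).length) _ (ph2 p q) hbx (ph2_inj p q)
    (fun a => List.ofFn a ∉ T)]
  have h1 : (bx X (fun i : Fin (3 * (p + q + 2) - 2) => ltr p q (i : ℕ)) o) ∘ ph2 p q =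
      fun i : Fin (high p q).length => sd X ((high p q).get i) := by
    funext i
    have hnone : o (ph2 p q i) = none := by
      rw [hF.none]
      show ¬ (2 * p + 2 * q + 3 ≤ 2 * p + 2 * q + 3 + (i : ℕ) + M.card ∧
        2 * p + 2 * q + 3 + (i : ℕ) < 2 * p + 2 * q + 3)
      omega
    simp only [Function.comp_apply]
    unfold bx
    rw [hnone, high_get]
    rfl
  rw [h1]
  exact hT

/-- the final inequality between the constants -/
lemma numbers {p q B : ℕ} {η θ : ℕ → ℝ} {h δ β : ℝ} (hC : Cst (p + q + 2) B η θ h δ)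
    (hβ : β ≤ δ) {m : ℕ} (hm1 : 1 ≤ m) (hm2 : m < p + q + 2) :
    0 < θ m ∧ θ m ≤ 1 ∧
    δ + (β + (β + ((2 * p + 2 * q + 3 : ℕ) : ℝ) * (3 * δ + η (m - 1)))) <
      (θ m) ^ (2 ^ (p + q + 2)) := by
  set K : ℝ := ((p + q + 2 : ℕ) : ℝ) with hK
  have hK1 : (1 : ℝ) ≤ K := by
    rw [hK]; exact_mod_cast (by omega : 1 ≤ p + q + 2)
  have h4k : (1 : ℝ) ≤ 4 ^ (p + q + 2) := one_le_pow₀ (by norm_num)
  have h2k : (1 : ℝ) ≤ 2 ^ (p + q + 2) := one_le_pow₀ (by norm_num)
  have hh1 : h ≤ 1 := by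
    refine hC.hsmall.trans ?_
    rw [div_le_one (by positivity)]
    rw [← hK]
    nlinarith
  have hh0 := hC.hpos
  have ht := hC.tpos m hm1 hm2
  have hη0 := hC.pos m (by omega)
  have hη1 := hC.half m (by omega)
  have hts := hC.tsmall m hm1 hm2
  have ht1 : θ m ≤ 1 := by
    refine hts.trans (pow_le_one₀ ?_ ?_)
    · positivity
    · rw [div_le_one (by positivity)]
      rw [← hK]
      nlinarith
  refine ⟨ht, ht1, ?_⟩
  have hE := hC.pos (m - 1) (by omega)
  have h1 := hC.eta_theta m hm1 hm2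
  rw [← hK] at h1
  have h2 := hC.dsmall
  rw [← hK] at h2
  have h3 := eta_mono hC (by omega) (Nat.zero_le (m - 1)) (by omega)
  have h0 := hC.pos 0 (by omega)
  have hδ := hC.dpos
  have hB : (0 : ℝ) ≤ (B : ℝ) := Nat.cast_nonneg _
  have h5 : 100 * K * δ ≤ η (m - 1) := by
    have h6 : 100 * K * δ ≤ 100 * K * 4 ^ (p + q + 2) * ((B : ℝ) + 1) * δ := by
      have h7 : (1 : ℝ) ≤ 4 ^ (p + q + 2) * ((B : ℝ) + 1) :=
        one_le_mul_of_one_le_of_one_le h4k (by linarith)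
      have h8 : 0 ≤ 100 * K * δ := by positivity
      nlinarith
    have h9 : η 0 * h ≤ η 0 := by nlinarith
    linarith
  have h6 : ((2 * p + 2 * q + 3 : ℕ) : ℝ) ≤ 2 * K := by
    rw [hK]
    have : ((2 * p + 2 * q + 3 : ℕ) : ℝ) ≤ ((2 * (p + q + 2) : ℕ) : ℝ) := by
      exact_mod_cast (by omega : 2 * p + 2 * q + 3 ≤ 2 * (p + q + 2))
    refine this.trans (le_of_eq ?_)
    push_cast; ring
  have h7 : ((2 * p + 2 * q + 3 : ℕ) : ℝ) * (3 * δ + η (m - 1)) ≤ 2 * K * (3 * δ + η (m - 1)) :=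
    mul_le_mul_of_nonneg_right h6 (by linarith)
  have h8 : η (m - 1) ≤ K * η (m - 1) := by nlinarith
  have h9 : δ ≤ K * δ := by nlinarith
  refine lt_of_lt_of_le ?_ h1
  have h10 : 2 * K * (3 * δ + η (m - 1)) = 6 * (K * δ) + 2 * (K * η (m - 1)) := by ring
  have h11 : 16 * K * η (m - 1) = 16 * (K * η (m - 1)) := by ring
  have h12 : 100 * K * δ = 100 * (K * δ) := by ring
  have h13 : 0 < K * η (m - 1) := by positivity
  rw [h12] at h5
  rw [h11]
  rw [h10] at h7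
  linarith

/-- **Row MIX.** -/
theorem e_mix (h01 : StmtE01) (h02 : StmtE02) (h04 : StmtE04) (h05 : StmtE05) (h16 : StmtE16)
    (h17 : StmtE17) (h18 : StmtE18) (h20 : StmtE20) : StmtE21 := by
  intro V _ _ H X M F p q B δ h β η θ S T hA hC hβ hMst hne hMX hMp hMix hFB hMF hS hT
  have hM1 : 1 ≤ M.card := Finset.card_pos.mpr hne
  obtain ⟨o, hF⟩ := exists_Fx p q M hMp
  obtain ⟨hn, hX, hX', hsd3⟩ := amb_nonempty hA
  have haM : (p + 1 - M.card) + M.card = p + 1 := by omega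
  have hap : p + 1 - M.card ≤ p := by omega
  obtain ⟨ht0, ht1, hnum⟩ := numbers hC hβ hM1 (by omega : M.card < p + q + 2)
  have hPE := dens_PE h01 h02 h20 hX hX' hF hM1 haM hap ht0.le ht1 hMix.le
  have hbx : ∀ i, (bx X (fun i : Fin (3 * (p + q + 2) - 2) => ltr p q (i : ℕ)) o i).Nonempty := by
    intro i
    unfold bx
    rcases o i with _ | v
    · show (sd X (ltr p q i)).Nonempty
      unfold sd
      split_ifs
      · exact hX
      · exact hX'
    · exact ⟨v, by simp⟩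
  obtain ⟨e1, e2, e3, e4, e5, e6⟩ := h01 V (Fin (3 * (p + q + 2) - 2))
    (bx X (fun i : Fin (3 * (p + q + 2) - 2) => ltr p q (i : ℕ)) o) hbx
  -- the events
  have hB1 := dens_deg h04 hA hFB hF (fun i : Fin (3 * (p + q + 2) - 2) => ltr p q (i : ℕ))
  have hB2 := dens_low h02 hF hMp hbx hS
  have hB3 := dens_high h02 hF hbx hT
  let W := {t : Fin (2 * p + 2 * q + 3) // (t : ℕ) < p + q + 1 ∨
    2 * p + 2 * q + 3 < (t : ℕ) + M.card}
  have hB4 : dens (bx X (fun i : Fin (3 * (p + q + 2) - 2) => ltr p q (i : ℕ)) o)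
      (fun f => ∃ t : W, (win p q (t : Fin (2 * p + 2 * q + 3))).image f ∉ H) ≤
      ((2 * p + 2 * q + 3 : ℕ) : ℝ) * (3 * δ + η (M.card - 1)) := by
    refine (e6 W (fun t f => (win p q (t : Fin (2 * p + 2 * q + 3))).image f ∉ H)).trans ?_
    have h2 : ∀ t : W, dens (bx X (fun i : Fin (3 * (p + q + 2) - 2) => ltr p q (i : ℕ)) o)
        (fun f => (win p q (t : Fin (2 * p + 2 * q + 3))).image f ∉ H) ≤
        3 * δ + η (M.card - 1) := by
      intro t
      have h3 := ordinary h05 h17 h18 hA hC hMst hne hMX hMp hX hX' hF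
        (a := ((t : Fin (2 * p + 2 * q + 3)) : ℕ)) (by have := t.1.2; omega) t.2
      have h4 := e4 (fun f => (win p q (t : Fin (2 * p + 2 * q + 3))).image f ∈ H)
      linarith
    have h3 : (Fintype.card W : ℝ) ≤ ((2 * p + 2 * q + 3 : ℕ) : ℝ) := by
      have h4 := Fintype.card_subtype_le (fun t : Fin (2 * p + 2 * q + 3) =>
        (t : ℕ) < p + q + 1 ∨ 2 * p + 2 * q + 3 < (t : ℕ) + M.card)
      rw [Fintype.card_fin] at h4
      exact_mod_cast h4
    have h4 : 0 ≤ 3 * δ + η (M.card - 1) := by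
      have := hC.pos (M.card - 1) (by omega)
      have := hC.dpos
      linarith
    calc _ ≤ ∑ _t : W, (3 * δ + η (M.card - 1)) := Finset.sum_le_sum fun t _ => h2 t
      _ = (Fintype.card W : ℝ) * (3 * δ + η (M.card - 1)) := by
          rw [Finset.sum_const, nsmul_eq_mul, Finset.card_univ]
      _ ≤ _ := mul_le_mul_of_nonneg_right h3 h4
  -- a good function
  have hex : ∃ f : Fin (3 * (p + q + 2) - 2) → V,
      (∀ i, f i ∈ bx X (fun i : Fin (3 * (p + q + 2) - 2) => ltr p q (i : ℕ)) o i) ∧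
      PE H M (f ∘ plc p q (p + 1 - M.card) hap) ∧
      (Function.Injective f ∧ ∀ i, o i = none → f i ∉ F) ∧
      List.ofFn (f ∘ ph1 p q) ∈ S ∧ List.ofFn (f ∘ ph2 p q) ∈ T ∧
      ∀ t : W, (win p q (t : Fin (2 * p + 2 * q + 3))).image f ∈ H := by
    by_contra hcon
    push Not at hcon
    have h1 := e2 (fun f => PE H M (f ∘ plc p q (p + 1 - M.card) hap))
      (fun f => (¬ (Function.Injective f ∧ ∀ i, o i = none → f i ∉ F)) ∨
        (List.ofFn (f ∘ ph1 p q) ∉ S ∨ (List.ofFn (f ∘ ph2 p q) ∉ T ∨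
          ∃ t : W, (win p q (t : Fin (2 * p + 2 * q + 3))).image f ∉ H))) (by
        intro f hf hP
        by_contra hc
        push Not at hc
        obtain ⟨t, ht⟩ := hcon f hf hP hc.1 hc.2.1 hc.2.2.1
        exact ht (hc.2.2.2 t))
    have h2 := e3 (fun f => ¬ (Function.Injective f ∧ ∀ i, o i = none → f i ∉ F))
      (fun f => List.ofFn (f ∘ ph1 p q) ∉ S ∨ (List.ofFn (f ∘ ph2 p q) ∉ T ∨
          ∃ t : W, (win p q (t : Fin (2 * p + 2 * q + 3))).image f ∉ H))
    have h3 := e3 (fun f => List.ofFn (f ∘ ph1 p q) ∉ S)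
      (fun f => List.ofFn (f ∘ ph2 p q) ∉ T ∨
          ∃ t : W, (win p q (t : Fin (2 * p + 2 * q + 3))).image f ∉ H)
    have h4 := e3 (fun f => List.ofFn (f ∘ ph2 p q) ∉ T)
      (fun f => ∃ t : W, (win p q (t : Fin (2 * p + 2 * q + 3))).image f ∉ H)
    linarith
  obtain ⟨f, hf, hP, ⟨hinj, hFo⟩, hfS, hfT, hW⟩ := hex
  have hfix : ∀ i v, o i = some v → f i = v := by
    intro i v hi
    have h1 := hf i
    unfold bx at h1
    rw [hi] at h1
    simpa using h1
  refine ⟨List.ofFn f, ?_, List.length_ofFn, ?_, ?_, ?_, ?_⟩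
  · refine h16 V H (p + q + 2) (3 * (p + q + 2) - 2) f hinj ?_
    intro c hc
    by_cases h1 : c < p + q + 1 ∨ 2 * p + 2 * q + 3 < c + M.card
    · exact hW ⟨⟨c, by omega⟩, h1⟩
    · rw [not_or, not_lt, not_lt] at h1
      exact full_windows hF hM1 haM hap hf hP h1.1 h1.2
  · rw [take_ofFn]
    exact hfS
  · rw [drop_ofFn]
    exact hfT
  · intro v hv
    obtain ⟨i, hi⟩ := (hF.mem v).mp hv
    rw [List.mem_toFinset, List.mem_ofFn]
    exact ⟨i, hfix i v hi⟩
  · rw [Finset.disjoint_left]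
    intro v hv
    rw [List.mem_toFinset, List.mem_ofFn] at hv
    obtain ⟨i, rfl⟩ := hv
    rcases hoi : o i with _ | v
    · exact hFo i hoi
    · rw [hfix i v hoi]
      exact Finset.disjoint_left.mp hMF ((hF.mem v).mpr ⟨i, hoi⟩)

end Pool.Agent.KK.E.H40
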