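import Pool.Agent.KK.StmtsE

/-!
# Squad KK, block E, row MIX, part A: letters, windows, fixed positions
-/

set_option autoImplicit false

namespace Pool.Agent.KK.E.H40

open Pool.Agent.KK Pool.Agent.KK.E

/-- letters of the crossing -/
def ltr (p q i : ℕ) : Bool :=
  decide ((q ≤ i ∧ i < p + q) ∨ (p + 2 * q + 2 ≤ i ∧ i ≤ 2 * p + 2 * q + 3) ∨
    (2 * p + 3 * q + 4 ≤ i ∧ i < 3 * p + 3 * q + 4))

lemma word_getD (p q i : ℕ) : (word p q).getD i false = ltr p q i := by
  unfold word low high ltr
  simp only [List.getD_eq_getElem?_getD, List.getElem?_append, List.length_append,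
    List.length_replicate, List.length_cons, List.length_nil, List.getElem?_replicate,
    List.getElem?_cons]
  split_ifs <;> simp <;> omega

lemma low_length (p q : ℕ) : (low p q).length = p + q + 1 := by
  unfold low; simp; omega

lemma high_length (p q : ℕ) : (high p q).length = p + q + 1 := by
  unfold high; simp; omega

lemma low_get (p q : ℕ) (i : Fin (low p q).length) : (low p q).get i = ltr p q i := by
  have h1 := word_getD p q i
  have hi := i.2
  rw [← h1]
  unfold word
  rw [List.append_assoc, List.getD_append _ _ _ _ hi, List.getD_eq_getElem _ _ hi]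
  rfl

lemma high_get (p q : ℕ) (i : Fin (high p q).length) :
    (high p q).get i = ltr p q (2 * p + 2 * q + 3 + i) := by
  have h1 := word_getD p q (2 * p + 2 * q + 3 + i)
  have hi := i.2
  have hl := low_length p q
  rw [← h1]
  unfold word
  have h2 : (low p q ++ (List.replicate (q + 1) false ++ List.replicate (p + 1) true)).length =
      2 * p + 2 * q + 3 := by
    rw [List.length_append, hl]; simp; omega
  rw [List.getD_append_right _ _ _ _ (by omega), h2]
  have h3 : 2 * p + 2 * q + 3 + (i : ℕ) - (2 * p + 2 * q + 3) = i := by omega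
  rw [h3, List.getD_eq_getElem _ _ hi]
  rfl

/-- the window starting at `a` -/
def win (p q a : ℕ) : Finset (Fin (3 * (p + q + 2) - 2)) :=
  Finset.univ.filter fun i => a ≤ (i : ℕ) ∧ (i : ℕ) < a + (p + q + 2)

lemma mem_win {p q a : ℕ} {i : Fin (3 * (p + q + 2) - 2)} :
    i ∈ win p q a ↔ a ≤ (i : ℕ) ∧ (i : ℕ) < a + (p + q + 2) := by
  simp [win]

lemma card_win {p q a : ℕ} (ha : a + (p + q + 2) ≤ 3 * (p + q + 2) - 2) :
    (win p q a).card = p + q + 2 := by
  have h1 : (win p q a).card = (Finset.range (p + q + 2)).card := by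
    symm
    refine Finset.card_bij (fun i hi => ⟨a + i, by rw [Finset.mem_range] at hi; omega⟩) ?_ ?_ ?_
    · intro i hi
      rw [Finset.mem_range] at hi
      rw [mem_win]
      exact ⟨by simp, by simp only; omega⟩
    · intro i hi j hj hij
      have := congrArg Fin.val hij
      simp only at this
      omega
    · intro j hj
      rw [mem_win] at hj
      exact ⟨j - a, by rw [Finset.mem_range]; omega, by apply Fin.ext; simp only; omega⟩
  rw [h1, Finset.card_range]

/-- number of the letters `X` in the window -/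
lemma card_true (h18 : StmtE18) {p q a : ℕ} (ha : a + (p + q + 2) ≤ 3 * (p + q + 2) - 2) :
    ((win p q a).filter fun i : Fin (3 * (p + q + 2) - 2) => ltr p q (i : ℕ) = true).card =
      (if a < p + q + 1 then p else if a = p + q + 1 then p + 1 else p + 2) := by
  rw [← (h18 p q a ha).2]
  symm
  refine Finset.card_bij (fun i hi => ⟨a + i, by
    rw [Finset.mem_filter, Finset.mem_range] at hi; omega⟩) ?_ ?_ ?_
  · intro i hi
    rw [Finset.mem_filter, Finset.mem_range, word_getD] at hi
    rw [Finset.mem_filter, mem_win]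
    exact ⟨⟨by simp, by simp only; omega⟩, hi.2⟩
  · intro i hi j hj hij
    have := congrArg Fin.val hij
    simp only at this
    omega
  · intro j hj
    rw [Finset.mem_filter, mem_win] at hj
    have h1 : a + ((j : ℕ) - a) = j := by omega
    refine ⟨j - a, ?_, by apply Fin.ext; simp only; omega⟩
    rw [Finset.mem_filter, Finset.mem_range, word_getD, h1]
    exact ⟨by omega, hj.2⟩

variable {V : Type} [Fintype V] [DecidableEq V]

/-- positions of the elements of `M` -/
structure Fx (p q : ℕ) (M : Finset V) (o : Fin (3 * (p + q + 2) - 2) → Option V) : Prop where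
  none : ∀ i : Fin (3 * (p + q + 2) - 2), o i = none ↔ ¬ (2 * p + 2 * q + 3 ≤ (i : ℕ) + M.card ∧ (i : ℕ) < 2 * p + 2 * q + 3)
  inj : ∀ i i' v, o i = some v → o i' = some v → i = i'
  mem : ∀ v, v ∈ M ↔ ∃ i, o i = some v

omit [Fintype V] [DecidableEq V] in
lemma exists_Fx (p q : ℕ) (M : Finset V) (hM : M.card ≤ p + 1) : ∃ o, Fx p q M o := by
  classical
  let e := M.equivFin.symm
  let o : Fin (3 * (p + q + 2) - 2) → Option V := fun i =>
    if h : 2 * p + 2 * q + 3 ≤ (i : ℕ) + M.card ∧ (i : ℕ) < 2 * p + 2 * q + 3 then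
      some (e ⟨(i : ℕ) + M.card - (2 * p + 2 * q + 3), by omega⟩ : V) else none
  have ho : ∀ i : Fin (3 * (p + q + 2) - 2), (h : 2 * p + 2 * q + 3 ≤ (i : ℕ) + M.card ∧ (i : ℕ) < 2 * p + 2 * q + 3) →
      o i = some (e ⟨(i : ℕ) + M.card - (2 * p + 2 * q + 3), by omega⟩ : V) := fun i h => by
    simp only [o]; rw [dif_pos h]
  have ho' : ∀ i : Fin (3 * (p + q + 2) - 2), ¬ (2 * p + 2 * q + 3 ≤ (i : ℕ) + M.card ∧ (i : ℕ) < 2 * p + 2 * q + 3) →
      o i = none := fun i h => by
    simp only [o]; rw [dif_neg h]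
  refine ⟨o, ?_, ?_, ?_⟩
  · intro i
    constructor
    · intro h h'
      rw [ho i h'] at h
      exact Option.some_ne_none _ h
    · exact ho' i
  · intro i i' v h h'
    have h1 : 2 * p + 2 * q + 3 ≤ (i : ℕ) + M.card ∧ (i : ℕ) < 2 * p + 2 * q + 3 := by
      by_contra hcon
      rw [ho' i hcon] at h
      exact Option.some_ne_none _ h.symm
    have h2 : 2 * p + 2 * q + 3 ≤ (i' : ℕ) + M.card ∧ (i' : ℕ) < 2 * p + 2 * q + 3 := by
      by_contra hcon
      rw [ho' i' hcon] at h'
      exact Option.some_ne_none _ h'.symm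
    rw [ho i h1] at h
    rw [ho i' h2] at h'
    have h3 := h.trans h'.symm
    rw [Option.some_inj] at h3
    have h4 := e.injective (Subtype.ext h3)
    have h5 := congrArg Fin.val h4
    simp only at h5
    apply Fin.ext
    omega
  · intro v
    constructor
    · intro hv
      obtain ⟨j, hj⟩ := e.surjective ⟨v, hv⟩
      have hjlt := j.2
      have h1 : 2 * p + 2 * q + 3 - M.card + (j : ℕ) < 3 * (p + q + 2) - 2 := by omega
      refine ⟨⟨2 * p + 2 * q + 3 - M.card + (j : ℕ), h1⟩, ?_⟩
      rw [ho _ ⟨by show 2 * p + 2 * q + 3 ≤ 2 * p + 2 * q + 3 - M.card + (j : ℕ) + M.card; omega,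
        by show 2 * p + 2 * q + 3 - M.card + (j : ℕ) < 2 * p + 2 * q + 3; omega⟩]
      have h2 : (⟨(((⟨2 * p + 2 * q + 3 - M.card + (j : ℕ), h1⟩ : Fin (3 * (p + q + 2) - 2)) : ℕ)) +
          M.card - (2 * p + 2 * q + 3), by simp only; omega⟩ : Fin M.card) = j := by
        apply Fin.ext
        simp only
        omega
      rw [h2, hj]
    · rintro ⟨i, hi⟩
      by_cases h : 2 * p + 2 * q + 3 ≤ (i : ℕ) + M.card ∧ (i : ℕ) < 2 * p + 2 * q + 3
      · rw [ho i h, Option.some_inj] at hi
        rw [← hi]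
        exact (e _).2
      · rw [ho' i h] at hi
        exact absurd hi.symm (Option.some_ne_none _)

end Pool.Agent.KK.E.H40
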