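import Pool.Agent.Helper40_KK.MixA

/-!
# Squad KK, block E, row MIX, part B: ordinary windows
-/

set_option autoImplicit false

namespace Pool.Agent.KK.E.H40

open Pool.Agent.KK Pool.Agent.KK.E

variable {V : Type} [Fintype V] [DecidableEq V]

/-- the fixed vertices in the window -/
def fixW (p q a : ℕ) (M : Finset V) (o : Fin (3 * (p + q + 2) - 2) → Option V) : Finset V :=
  M.filter fun v => ∃ i ∈ win p q a, o i = some v

omit [Fintype V] in
lemma mem_fixW {p q a : ℕ} {M : Finset V} {o : Fin (3 * (p + q + 2) - 2) → Option V}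
    (h : Fx p q M o) (v : V) : v ∈ fixW p q a M o ↔ ∃ i ∈ win p q a, o i = some v := by
  unfold fixW
  rw [Finset.mem_filter]
  constructor
  · exact fun h' => h'.2
  · intro h'
    refine ⟨?_, h'⟩
    obtain ⟨i, _, hi⟩ := h'
    exact (h.mem v).mpr ⟨i, hi⟩

omit [Fintype V] in
lemma card_fixW {p q a : ℕ} {M : Finset V} {o : Fin (3 * (p + q + 2) - 2) → Option V}
    (h : Fx p q M o) :
    (fixW p q a M o).card = ((win p q a).filter fun i => o i ≠ none).card := by
  symm
  refine Finset.card_bij (fun i hi => (o i).get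
    (Option.isSome_iff_ne_none.mpr (Finset.mem_filter.mp hi).2)) ?_ ?_ ?_
  · intro i hi
    rw [mem_fixW h]
    exact ⟨i, (Finset.mem_filter.mp hi).1, (Option.some_get _).symm⟩
  · intro i hi j hj hij
    refine h.inj i j _ (Option.some_get
      (Option.isSome_iff_ne_none.mpr (Finset.mem_filter.mp hi).2)).symm ?_
    rw [hij]
    exact (Option.some_get _).symm
  · intro v hv
    rw [mem_fixW h] at hv
    obtain ⟨i, hi, hi'⟩ := hv
    have h1 : i ∈ (win p q a).filter fun i => o i ≠ none := by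
      rw [Finset.mem_filter, hi']
      exact ⟨hi, Option.some_ne_none _⟩
    refine ⟨i, h1, ?_⟩
    apply Option.some_injective
    rw [Option.some_get]
    exact hi'

omit [Fintype V] [DecidableEq V] in
lemma fixed_letter {p q : ℕ} {M : Finset V} {o : Fin (3 * (p + q + 2) - 2) → Option V}
    (h : Fx p q M o) (hM : M.card ≤ p + 1) {i : Fin (3 * (p + q + 2) - 2)} (hi : o i ≠ none) :
    ltr p q (i : ℕ) = true := by
  have h1 : 2 * p + 2 * q + 3 ≤ (i : ℕ) + M.card ∧ (i : ℕ) < 2 * p + 2 * q + 3 := by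
    by_contra hcon
    exact hi ((h.none i).mpr hcon)
  unfold ltr
  rw [decide_eq_true_iff]
  omega

omit [Fintype V] in
lemma fix_counts {p q a c : ℕ} {M : Finset V} {o : Fin (3 * (p + q + 2) - 2) → Option V}
    (h : Fx p q M o) (hM : M.card ≤ p + 1) (ha : a + (p + q + 2) ≤ 3 * (p + q + 2) - 2)
    (hc : ((win p q a).filter fun i : Fin (3 * (p + q + 2) - 2) =>
      ltr p q (i : ℕ) = true).card = c) :
    (fixW p q a M o).card ≤ c ∧
    ((win p q a).filter fun i => o i = none ∧ ltr p q (i : ℕ) = true).card =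
      c - (fixW p q a M o).card ∧
    ((win p q a).filter fun i => o i = none ∧ ltr p q (i : ℕ) = false).card =
      (p + q + 2) - c := by
  have hsub : ((win p q a).filter fun i => o i ≠ none) ⊆
      ((win p q a).filter fun i : Fin (3 * (p + q + 2) - 2) => ltr p q (i : ℕ) = true) := by
    intro i hi
    rw [Finset.mem_filter] at hi ⊢
    exact ⟨hi.1, fixed_letter h hM hi.2⟩
  have hcard := card_fixW (a := a) h
  refine ⟨?_, ?_, ?_⟩
  · rw [hcard, ← hc]
    exact Finset.card_le_card hsub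
  · rw [hcard, ← hc, ← Finset.card_sdiff_of_subset hsub]
    congr 1
    ext i
    simp only [Finset.mem_filter, Finset.mem_sdiff, not_and, not_not]
    tauto
  · have h9 : (p + q + 2) - c = (win p q a).card - ((win p q a).filter
        fun i : Fin (3 * (p + q + 2) - 2) => ltr p q (i : ℕ) = true).card := by
      rw [card_win ha, hc]
    refine Eq.trans ?_ h9.symm
    rw [← Finset.card_sdiff_of_subset (Finset.filter_subset _ _)]
    congr 1
    ext i
    simp only [Finset.mem_filter, Finset.mem_sdiff, not_and, Bool.not_eq_true]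
    constructor
    · rintro ⟨h1, h2, h3⟩
      exact ⟨h1, fun _ => h3⟩
    · rintro ⟨h1, h2⟩
      have h3 := h2 h1
      refine ⟨h1, ?_, h3⟩
      by_contra hcon
      rw [fixed_letter h hM hcon] at h3
      exact Bool.noConfusion h3

/-- `η` is increasing -/
lemma eta_mono {k B : ℕ} {η θ : ℕ → ℝ} {h δ : ℝ} (hC : Cst k B η θ h δ) (hk : 1 ≤ k) {i j : ℕ}
    (hij : i ≤ j) (hj : j ≤ k) : η i ≤ η j := by
  induction j with
  | zero =>
    have : i = 0 := by omega
    rw [this]
  | succ j ih =>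
    rcases Nat.lt_or_ge i (j + 1) with h1 | h1
    · refine (ih (by omega) (by omega)).trans ?_
      have h2 := hC.step j (by omega)
      have h3 := hC.pos j (by omega)
      refine le_trans ?_ h2
      have h4 : (1 : ℝ) ≤ 8 * (k : ℝ) * 4 ^ k * ((B : ℝ) + 1) := by
        have h5 : (1 : ℝ) ≤ (k : ℝ) := by exact_mod_cast hk
        have h6 : (1 : ℝ) ≤ 4 ^ k := one_le_pow₀ (by norm_num)
        have h7 : (1 : ℝ) ≤ (B : ℝ) + 1 := by
          have : (0 : ℝ) ≤ B := Nat.cast_nonneg B
          linarith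
        have h8 : (1 : ℝ) ≤ 8 * (k : ℝ) := by linarith
        have h9 : (1 : ℝ) ≤ 8 * (k : ℝ) * 4 ^ k := one_le_mul_of_one_le_of_one_le h8 h6
        exact one_le_mul_of_one_le_of_one_le h9 h7
      nlinarith
    · have : i = j + 1 := by omega
      rw [this]

/-- **Ordinary windows.** -/
theorem ordinary (h05 : StmtE05) (h17 : StmtE17) (h18 : StmtE18) {H : Finset (Finset V)}
    {X M : Finset V} {p q B : ℕ} {δ h : ℝ} {η θ : ℕ → ℝ} (hA : Amb H X p q B δ)
    (hC : Cst (p + q + 2) B η θ h δ) (hMst : Mst H X p q η M) (hne : M.Nonempty) (hMX : M ⊆ X)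
    (hMp : M.card ≤ p + 1) (hX : X.Nonempty) (hX' : (Xᶜ).Nonempty)
    {o : Fin (3 * (p + q + 2) - 2) → Option V} (hF : Fx p q M o) {a : ℕ}
    (ha : a + (p + q + 2) ≤ 3 * (p + q + 2) - 2)
    (hord : a < p + q + 1 ∨ 2 * p + 2 * q + 3 < a + M.card) :
    1 - 3 * δ - η (M.card - 1) ≤
      dens (bx X (fun i : Fin (3 * (p + q + 2) - 2) => ltr p q (i : ℕ)) o)
        (fun f => (win p q a).image f ∈ H) := by
  have hMpos : 1 ≤ M.card := Finset.card_pos.mpr hne
  set M' := fixW p q a M o with hM'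
  have hsub : M' ⊆ M := Finset.filter_subset _ _
  -- a fixed position outside the window
  have hout : ∃ i : Fin (3 * (p + q + 2) - 2), i ∉ win p q a ∧ o i ≠ none := by
    rcases hord with h1 | h1
    · refine ⟨⟨2 * p + 2 * q + 2, by omega⟩, ?_, ?_⟩
      · rw [mem_win]
        show ¬ (a ≤ 2 * p + 2 * q + 2 ∧ 2 * p + 2 * q + 2 < a + (p + q + 2))
        omega
      · intro hcon
        refine (hF.none _).mp hcon ?_
        show 2 * p + 2 * q + 3 ≤ 2 * p + 2 * q + 2 + M.card ∧ 2 * p + 2 * q + 2 < 2 * p + 2 * q + 3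
        omega
    · refine ⟨⟨2 * p + 2 * q + 3 - M.card, by omega⟩, ?_, ?_⟩
      · rw [mem_win]
        show ¬ (a ≤ 2 * p + 2 * q + 3 - M.card ∧ 2 * p + 2 * q + 3 - M.card < a + (p + q + 2))
        omega
      · intro hcon
        refine (hF.none _).mp hcon ?_
        show 2 * p + 2 * q + 3 ≤ 2 * p + 2 * q + 3 - M.card + M.card ∧
          2 * p + 2 * q + 3 - M.card < 2 * p + 2 * q + 3
        omega
  have hss : M' ⊂ M := by
    refine Finset.ssubset_iff_subset_ne.mpr ⟨hsub, fun heq => ?_⟩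
    obtain ⟨i, hi, hi'⟩ := hout
    obtain ⟨v, hv⟩ := Option.ne_none_iff_exists'.mp hi'
    have h1 : v ∈ M := (hF.mem v).mpr ⟨i, hv⟩
    rw [← heq, hM', mem_fixW hF] at h1
    obtain ⟨j, hj, hj'⟩ := h1
    rw [hF.inj i j v hv hj'] at hi
    exact hi hj
  have hnon : ¬ Non H X p q η M' := hMst.2 M' hss
  have hcard : M'.card ≤ M.card - 1 := by
    have := Finset.card_lt_card hss
    omega
  have hMX' : M' ⊆ X := hsub.trans hMX
  have hin : M' ∩ X = M' := Finset.inter_eq_left.mpr hMX'
  have hsd : M' \ X = ∅ := Finset.sdiff_eq_empty_iff_subset.mpr hMX'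
  have h17' := h17 V H X M' p q B δ η hA hnon (by rw [hin]; omega) (by rw [hsd]; simp)
  rw [hin, hsd, Finset.card_empty] at h17'
  have hη : η M'.card ≤ η (M.card - 1) := eta_mono hC (by omega) hcard (by omega)
  have h05' := fun b c hb hc => h05 V (Fin (3 * (p + q + 2) - 2)) H X M'
    (fun i : Fin (3 * (p + q + 2) - 2) => ltr p q (i : ℕ)) o (win p q a) b c hX hX'
    (fun v => mem_fixW hF v) hb hc
  rcases hord with h1 | h1
  · have hc := card_true h18 ha
    rw [if_pos h1] at hc
    obtain ⟨c1, c2, c3⟩ := fix_counts hF hMp ha hc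
    rw [h05' _ _ c2 c3]
    have h2 := h17'.2 c1
    have h3 : p + q + 2 - p = q + 2 - 0 := by omega
    rw [h3]
    exact le_trans (by linarith) h2
  · have hc := card_true h18 ha
    rw [if_neg (by omega), if_neg (by omega)] at hc
    obtain ⟨c1, c2, c3⟩ := fix_counts hF hMp ha hc
    rw [h05' _ _ c2 c3]
    have h2 := h17'.1 (by omega)
    have h3 : p + q + 2 - (p + 2) = q - 0 := by omega
    rw [h3]
    exact le_trans (by linarith) h2

end Pool.Agent.KK.E.H40
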