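import Pool.Agent.Helper40_KK.MixB

/-!
# Squad KK, block E, row MIX, part C: the windows containing all of `M`
-/

set_option autoImplicit false

namespace Pool.Agent.KK.E.H40

open Pool.Agent.KK Pool.Agent.KK.E

variable {V : Type} [Fintype V] [DecidableEq V]

/-- rank of a coordinate of `Q`: the letters `Y` come first -/
def rk {a q : ℕ} : Fin a ⊕ Fin q → ℕ := Sum.elim (fun t => q + (t : ℕ)) (fun t => (t : ℕ))

lemma rk_lt {a q : ℕ} (t : Fin a ⊕ Fin q) : rk t < q + a := by
  rcases t with t | t
  · have := t.2; simp only [rk, Sum.elim_inl]; omega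
  · have := t.2; simp only [rk, Sum.elim_inr]; omega

lemma rk_inj {a q : ℕ} {t t' : Fin a ⊕ Fin q} (h : rk t = rk t') : t = t' := by
  rcases t with t | t <;> rcases t' with t' | t' <;>
    simp only [rk, Sum.elim_inl, Sum.elim_inr] at h
  · exact congrArg Sum.inl (Fin.ext (by omega))
  · have := t'.2; omega
  · have := t.2; omega
  · exact congrArg Sum.inr (Fin.ext h)

lemma rk_surj {a q j : ℕ} (hj : j < q + a) : ∃ t : Fin a ⊕ Fin q, rk t = j := by
  by_cases h : j < q
  · exact ⟨Sum.inr ⟨j, h⟩, rfl⟩
  · refine ⟨Sum.inl ⟨j - q, by omega⟩, ?_⟩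
    show q + (j - q) = j
    omega

/-- the placement of the used coordinates -/
def plc (p q a : ℕ) (ha : a ≤ p) : ((Fin a ⊕ Fin q) × Bool) ⊕ Bool → Fin (3 * (p + q + 2) - 2)
  | Sum.inl (t, c) => ⟨(if c then 2 * (p + q + 2) else p + q + 2) + rk t, by
      have := rk_lt t; split_ifs <;> omega⟩
  | Sum.inr c => ⟨if c then 2 * p + 2 * q + 3 else p + q + 1, by split_ifs <;> omega⟩

lemma plc_inl {p q a : ℕ} (ha : a ≤ p) (t : Fin a ⊕ Fin q) (c : Bool) :
    ((plc p q a ha (Sum.inl (t, c))) : ℕ) =
      (if c then 2 * (p + q + 2) else p + q + 2) + rk t := rfl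

lemma plc_inr {p q a : ℕ} (ha : a ≤ p) (c : Bool) :
    ((plc p q a ha (Sum.inr c)) : ℕ) = if c then 2 * p + 2 * q + 3 else p + q + 1 := rfl

lemma plc_injective {p q a : ℕ} (ha : a ≤ p) : Function.Injective (plc p q a ha) := by
  intro x y hxy
  have h := congrArg Fin.val hxy
  rcases x with ⟨t, c⟩ | c <;> rcases y with ⟨t', c'⟩ | c'
  · rw [plc_inl, plc_inl] at h
    have h1 := rk_lt t
    have h2 := rk_lt t'
    have h3 : c = c' := by
      rcases c with _ | _ <;> rcases c' with _ | _
      · rfl
      · simp only [if_true, if_false, Bool.false_eq_true] at h; omega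
      · simp only [if_true, if_false, Bool.false_eq_true] at h; omega
      · rfl
    subst h3
    rw [rk_inj (Nat.add_left_cancel h)]
  · rw [plc_inl, plc_inr] at h
    have h1 := rk_lt t
    exfalso
    rcases c with _ | _ <;> rcases c' with _ | _ <;>
      simp only [if_true, if_false, Bool.false_eq_true] at h <;> omega
  · rw [plc_inl, plc_inr] at h
    have h1 := rk_lt t'
    exfalso
    rcases c with _ | _ <;> rcases c' with _ | _ <;>
      simp only [if_true, if_false, Bool.false_eq_true] at h <;> omega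
  · rw [plc_inr, plc_inr] at h
    rcases c with _ | _ <;> rcases c' with _ | _
    · rfl
    · simp only [if_true, if_false, Bool.false_eq_true] at h; omega
    · simp only [if_true, if_false, Bool.false_eq_true] at h; omega
    · rfl

/-- the event on the used coordinates -/
def PE (H : Finset (Finset V)) (M : Finset V) {a q : ℕ}
    (g : ((Fin a ⊕ Fin q) × Bool) ⊕ Bool → V) : Prop :=
  ∀ s : Fin a ⊕ Fin q → Bool,
    insert (g (Sum.inr true)) (M ∪ Finset.univ.image fun i => g (Sum.inl (i, s i))) ∈ H ∧
    insert (g (Sum.inr false)) (M ∪ Finset.univ.image fun i => g (Sum.inl (i, s i))) ∈ H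

/-- **Windows containing all of `M`.** -/
theorem full_windows {H : Finset (Finset V)} {X M : Finset V} {p q : ℕ}
    {o : Fin (3 * (p + q + 2) - 2) → Option V} (hF : Fx p q M o) (hM1 : 1 ≤ M.card)
    {a : ℕ} (haM : a + M.card = p + 1) (hap : a ≤ p) {l : Fin (3 * (p + q + 2) - 2) → Bool}
    {f : Fin (3 * (p + q + 2) - 2) → V} (hf : ∀ i, f i ∈ bx X l o i)
    (hP : PE H M (f ∘ plc p q a hap)) {c : ℕ} (hc1 : p + q + 1 ≤ c)
    (hc2 : c + M.card ≤ 2 * p + 2 * q + 3) : (win p q c).image f ∈ H := by
  have hfix : ∀ i v, o i = some v → f i = v := by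
    intro i v hi
    have h1 := hf i
    unfold bx at h1
    rw [hi] at h1
    simpa using h1
  have hMpos : ∀ v ∈ M, ∃ i : Fin (3 * (p + q + 2) - 2), f i = v ∧
      2 * p + 2 * q + 3 ≤ (i : ℕ) + M.card ∧ (i : ℕ) < 2 * p + 2 * q + 3 := by
    intro v hv
    obtain ⟨i, hi⟩ := (hF.mem v).mp hv
    refine ⟨i, hfix i v hi, ?_⟩
    by_contra hcon
    rw [(hF.none i).mpr hcon] at hi
    exact Option.some_ne_none _ hi.symm
  have hfM : ∀ i : Fin (3 * (p + q + 2) - 2), 2 * p + 2 * q + 3 ≤ (i : ℕ) + M.card →
      (i : ℕ) < 2 * p + 2 * q + 3 → f i ∈ M := by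
    intro i h1 h2
    have h3 : o i ≠ none := fun hcon => (hF.none i).mp hcon ⟨h1, h2⟩
    obtain ⟨v, hv⟩ := Option.ne_none_iff_exists'.mp h3
    rw [hfix i v hv]
    exact (hF.mem v).mpr ⟨i, hv⟩
  have hval : ∀ (i j : Fin (3 * (p + q + 2) - 2)), (i : ℕ) = j → f i = f j :=
    fun i j h => congrArg f (Fin.ext h)
  rcases Nat.eq_or_lt_of_le hc1 with h1 | h1
  · -- the window starting at `k - 1`
    have h2 := (hP (fun _ => false)).2
    have h3 : (win p q c).image f = insert ((f ∘ plc p q a hap) (Sum.inr false))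
        (M ∪ Finset.univ.image fun i => (f ∘ plc p q a hap) (Sum.inl (i, false))) := by
      ext v
      simp only [Finset.mem_image, Finset.mem_insert, Finset.mem_union, Finset.mem_univ, true_and,
        mem_win, Function.comp_apply]
      constructor
      · rintro ⟨i, ⟨hi1, hi2⟩, rfl⟩
        by_cases h4 : (i : ℕ) = p + q + 1
        · exact Or.inl (hval _ _ (by rw [plc_inr]; simpa using h4))
        · by_cases h5 : (i : ℕ) + M.card < 2 * p + 2 * q + 3
          · obtain ⟨t, ht⟩ := rk_surj (a := a) (q := q) (j := (i : ℕ) - (p + q + 2)) (by omega)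
            refine Or.inr (Or.inr ⟨t, hval _ _ ?_⟩)
            rw [plc_inl, ht]
            simp only [Bool.false_eq_true, if_false]
            omega
          · exact Or.inr (Or.inl (hfM i (by omega) (by omega)))
      · rintro (h4 | h4 | ⟨t, h4⟩)
        · refine ⟨plc p q a hap (Sum.inr false), ?_, h4.symm⟩
          rw [plc_inr]
          simp only [Bool.false_eq_true, if_false]
          omega
        · obtain ⟨i, hi, hi1, hi2⟩ := hMpos v h4
          exact ⟨i, by omega, hi⟩
        · refine ⟨plc p q a hap (Sum.inl (t, false)), ?_, h4⟩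
          have h5 := rk_lt t
          rw [plc_inl]
          simp only [Bool.false_eq_true, if_false]
          omega
    rw [h3]
    exact h2
  · -- the windows starting later
    have h2 := (hP (fun t => decide (rk t + (p + q + 2) < c))).1
    have h3 : (win p q c).image f = insert ((f ∘ plc p q a hap) (Sum.inr true))
        (M ∪ Finset.univ.image fun i =>
          (f ∘ plc p q a hap) (Sum.inl (i, decide (rk i + (p + q + 2) < c)))) := by
      ext v
      simp only [Finset.mem_image, Finset.mem_insert, Finset.mem_union, Finset.mem_univ, true_and,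
        mem_win, Function.comp_apply]
      constructor
      · rintro ⟨i, ⟨hi1, hi2⟩, rfl⟩
        by_cases h4 : (i : ℕ) = 2 * p + 2 * q + 3
        · exact Or.inl (hval _ _ (by rw [plc_inr]; simpa using h4))
        · by_cases h5 : (i : ℕ) + M.card < 2 * p + 2 * q + 3
          · obtain ⟨t, ht⟩ := rk_surj (a := a) (q := q) (j := (i : ℕ) - (p + q + 2)) (by omega)
            refine Or.inr (Or.inr ⟨t, hval _ _ ?_⟩)
            have h6 : ¬ (rk t + (p + q + 2) < c) := by omega
            rw [plc_inl]
            simp only [h6, decide_false, Bool.false_eq_true, if_false]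
            omega
          · by_cases h7 : (i : ℕ) < 2 * p + 2 * q + 3
            · exact Or.inr (Or.inl (hfM i (by omega) h7))
            · obtain ⟨t, ht⟩ := rk_surj (a := a) (q := q) (j := (i : ℕ) - 2 * (p + q + 2))
                (by omega)
              refine Or.inr (Or.inr ⟨t, hval _ _ ?_⟩)
              have h6 : rk t + (p + q + 2) < c := by omega
              rw [plc_inl]
              simp only [h6, decide_true, if_true]
              omega
      · rintro (h4 | h4 | ⟨t, h4⟩)
        · refine ⟨plc p q a hap (Sum.inr true), ?_, h4.symm⟩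
          rw [plc_inr]
          simp only [if_true]
          omega
        · obtain ⟨i, hi, hi1, hi2⟩ := hMpos v h4
          exact ⟨i, by omega, hi⟩
        · refine ⟨_, ?_, h4⟩
          have h5 := rk_lt t
          rw [plc_inl]
          by_cases h6 : rk t + (p + q + 2) < c
          · simp only [h6, decide_true, if_true]
            omega
          · simp only [h6, decide_false, Bool.false_eq_true, if_false]
            omega
    rw [h3]
    exact h2

/-- **The density of the event.** -/
theorem dens_PE (h01 : StmtE01) (h02 : StmtE02) (h20 : StmtE20) {H : Finset (Finset V)}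
    {X M : Finset V} {p q : ℕ} (hX : X.Nonempty) (hX' : (Xᶜ).Nonempty)
    {o : Fin (3 * (p + q + 2) - 2) → Option V} (hF : Fx p q M o) (hM1 : 1 ≤ M.card)
    {a : ℕ} (haM : a + M.card = p + 1) (hap : a ≤ p) {d : ℝ} (hd0 : 0 ≤ d) (hd1 : d ≤ 1)
    (hd : d ≤ Mix H X M a q) :
    d ^ (2 ^ (p + q + 2)) ≤
      dens (bx X (fun i : Fin (3 * (p + q + 2) - 2) => ltr p q (i : ℕ)) o)
        (fun f => PE H M (f ∘ plc p q a hap)) := by
  have hsd : ∀ b, (sd X b).Nonempty := by
    intro b
    unfold sd
    split_ifs
    · exact hX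
    · exact hX'
  have hlets : ∀ i, (lets X a q i).Nonempty := by
    intro i
    rcases i with i | i
    · exact hX
    · exact hX'
  set cM : (Fin a ⊕ Fin q) ⊕ Bool → Finset V :=
    Sum.elim (lets X a q) (fun t : Bool => sd X t) with hcM
  have hcMne : ∀ i, (cM i).Nonempty := by
    intro i
    rcases i with i | i
    · exact hlets i
    · exact hsd i
  have h1 := h20 V ((Fin a ⊕ Fin q) ⊕ Bool) cM
    (fun f => insert (f (Sum.inr true)) (M ∪ Finset.univ.image fun i => f (Sum.inl i)) ∈ H ∧
      insert (f (Sum.inr false)) (M ∪ Finset.univ.image fun i => f (Sum.inl i)) ∈ H) d hcMne hd0 hd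
  have hcard : Fintype.card ((Fin a ⊕ Fin q) ⊕ Bool) ≤ p + q + 2 := by
    simp only [Fintype.card_sum, Fintype.card_fin, Fintype.card_bool]
    omega
  have h2 : d ^ (2 ^ (p + q + 2)) ≤ d ^ (2 ^ Fintype.card ((Fin a ⊕ Fin q) ⊕ Bool)) :=
    pow_le_pow_of_le_one hd0 hd1 (Nat.pow_le_pow_right (by norm_num) hcard)
  refine h2.trans (h1.trans ?_)
  let ψ : ((Fin a ⊕ Fin q) × Bool) ⊕ Bool → ((Fin a ⊕ Fin q) ⊕ Bool) × Bool :=
    Sum.elim (fun x => (Sum.inl x.1, x.2)) (fun b => (Sum.inr b, false))
  have hψ : Function.Injective ψ := by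
    intro x y hxy
    rcases x with ⟨t, c⟩ | c <;> rcases y with ⟨t', c'⟩ | c' <;>
      simp only [ψ, Sum.elim_inl, Sum.elim_inr, Prod.mk.injEq, Sum.inl.injEq, Sum.inr.injEq,
        reduceCtorEq, false_and, and_true] at hxy
    · rw [hxy.1, hxy.2]
    · rw [hxy]
  have hbig : ∀ z : ((Fin a ⊕ Fin q) ⊕ Bool) × Bool,
      ((fun z : ((Fin a ⊕ Fin q) ⊕ Bool) × Bool => cM z.1) z).Nonempty := fun z => hcMne z.1
  have h3 := (h01 V (((Fin a ⊕ Fin q) ⊕ Bool) × Bool) (fun z => cM z.1) hbig).2.1
    (fun g => ∀ s : (Fin a ⊕ Fin q) ⊕ Bool → Bool,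
      insert ((fun i => g (i, s i)) (Sum.inr true))
        (M ∪ Finset.univ.image fun i => (fun i => g (i, s i)) (Sum.inl i)) ∈ H ∧
      insert ((fun i => g (i, s i)) (Sum.inr false))
        (M ∪ Finset.univ.image fun i => (fun i => g (i, s i)) (Sum.inl i)) ∈ H)
    (fun g => PE H M (g ∘ ψ)) (by
      intro g _ hg s
      exact hg (Sum.elim s (fun _ => false)))
  refine h3.trans (le_of_eq ?_)
  rw [h02 V (((Fin a ⊕ Fin q) ⊕ Bool) × Bool) (((Fin a ⊕ Fin q) × Bool) ⊕ Bool)
    (fun z => cM z.1) ψ hbig hψ (PE H M)]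
  have hbx : ∀ i, (bx X (fun i : Fin (3 * (p + q + 2) - 2) => ltr p q (i : ℕ)) o i).Nonempty := by
    intro i
    unfold bx
    rcases o i with _ | v
    · exact hsd _
    · exact ⟨v, by simp⟩
  rw [h02 V (Fin (3 * (p + q + 2) - 2)) (((Fin a ⊕ Fin q) × Bool) ⊕ Bool) _ (plc p q a hap) hbx
    (plc_injective hap) (PE H M)]
  congr 1
  funext x
  simp only [Function.comp_apply]
  have hnone : o (plc p q a hap x) = none := by
    rw [hF.none]
    rcases x with ⟨t, c⟩ | c
    · have h5 := rk_lt t
      rw [plc_inl]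
      rcases c with _ | _ <;> simp only [Bool.false_eq_true, if_true, if_false] <;> omega
    · rw [plc_inr]
      rcases c with _ | _ <;> simp only [Bool.false_eq_true, if_true, if_false] <;> omega
  unfold bx
  rw [hnone]
  show cM (ψ x).1 = sd X (ltr p q ((plc p q a hap x : Fin _) : ℕ))
  rcases x with ⟨t, c⟩ | c
  · rw [plc_inl]
    rcases t with t | t
    · have h5 := t.2
      have h6 : ltr p q ((if c then 2 * (p + q + 2) else p + q + 2) +
          rk (Sum.inl t : Fin a ⊕ Fin q)) = true := by
        unfold ltr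
        rw [decide_eq_true_iff]
        simp only [rk, Sum.elim_inl]
        rcases c with _ | _ <;> simp only [Bool.false_eq_true, if_true, if_false] <;> omega
      rw [h6]
      rfl
    · have h5 := t.2
      have h6 : ltr p q ((if c then 2 * (p + q + 2) else p + q + 2) +
          rk (Sum.inr t : Fin a ⊕ Fin q)) = false := by
        unfold ltr
        rw [decide_eq_false_iff_not]
        simp only [rk, Sum.elim_inr]
        rcases c with _ | _ <;> simp only [Bool.false_eq_true, if_true, if_false] <;> omega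
      rw [h6]
      rfl
  · rw [plc_inr]
    rcases c with _ | _
    · have h6 : ltr p q (if (false : Bool) then 2 * p + 2 * q + 3 else p + q + 1) = false := by
        unfold ltr
        rw [decide_eq_false_iff_not]
        simp only [Bool.false_eq_true, if_false]
        omega
      rw [h6]
      rfl
    · have h6 : ltr p q (if (true : Bool) then 2 * p + 2 * q + 3 else p + q + 1) = true := by
        unfold ltr
        rw [decide_eq_true_iff]
        simp only [if_true]
        omega
      rw [h6]
      rfl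

end Pool.Agent.KK.E.H40
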